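import Pool.Agent.Y802.GC.NF

/-!
# A graded criterion for tame representations over local rings

Let `K/F` be a finite Galois extension of number fields, `p` a prime and `S` a set of primes of `F`
(for the tame Fontaine-Mazur conjecture, not containing the primes above `p`). Let `V` be the space
of the homomorphisms from the Galois group `G_{K,S}` to `ℤ/p`, a representation of `Gal(K/F)` over
`𝔽_p`. Suppose that `p ^ e` kills all finite abelian `p`-quotients of `G_{K,S}`, and that `V` and
`V^{⊗ i}` have no common composition factor for `2 ≤ i ≤ m`. Let `A` be a discrete valuation ring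
with finite residue field of characteristic `p` in which `p` has valuation `e0`, and let `ρ` be a
continuous representation of the absolute Galois group of `K` into `GL_n(A)`, unramified outside
`S`. If `ρ` is unipotent modulo the maximal ideal and `n e e0 < m`, then `ρ` is trivial. More
generally, `ρ` is trivial if all products of `r ≥ 1` matrices `ρ g - 1` vanish modulo the `s`-th
power of the maximal ideal and `r e e0 < s m`.
-/

set_option autoImplicit false

open NumberField IsLocalRing

namespace Pool.Agent.Results.MP_924d78_nt.GradedCriterion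

/-- The homomorphism `f` from the absolute Galois group of `K` to a group `E` is unramified outside
the set `S` of primes of `F`: for every maximal ideal `P` of the ring of all algebraic integers
such that the prime of `F` below `P` is not in `S`, the inertia group at `P` in the absolute Galois
group of `K` is mapped to `1`. -/
def UnramifiedOutside {F : Type} [Field F] (S : Set (Ideal (𝓞 F)))
    {K : IntermediateField F (AlgebraicClosure F)} {E : Type} [Group E]
    (f : K.fixingSubgroup →* E) : Prop :=
  ∀ P : Ideal (𝓞 (AlgebraicClosure F)), P.IsMaximal →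
    P.comap (algebraMap (𝓞 F) (𝓞 (AlgebraicClosure F))) ∉ S → ∀ τ : K.fixingSubgroup,
      (∀ x : 𝓞 (AlgebraicClosure F), (τ : Gal(AlgebraicClosure F/F)) • x - x ∈ P) → f τ = 1

/-- `p ^ e` kills the Galois group of every finite abelian extension of `K` of `p`-power degree
which is unramified outside `S` (at the finite primes). -/
def AbelianExponent {F : Type} [Field F] (S : Set (Ideal (𝓞 F)))
    (K : IntermediateField F (AlgebraicClosure F)) (p e : ℕ) : Prop :=
  ∀ (E : Type) [CommGroup E] [Finite E], IsPGroup p E → ∀ f : K.fixingSubgroup →* E,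
    IsOpen (f.ker : Set K.fixingSubgroup) → UnramifiedOutside S f → ∀ g, f g ^ (p ^ e) = 1

/-- `f` belongs to the space `V` of all homomorphisms from the absolute Galois group of `K` to
`ℤ/p` which have open kernel and are unramified outside `S`. -/
def Mem {F : Type} [Field F] (S : Set (Ideal (𝓞 F)))
    {K : IntermediateField F (AlgebraicClosure F)} {p : ℕ}
    (f : K.fixingSubgroup →* Multiplicative (ZMod p)) : Prop :=
  IsOpen (f.ker : Set K.fixingSubgroup) ∧ UnramifiedOutside S f

/-- There is an element `a = ∑ a_σ σ` of the integral group ring of the absolute Galois group of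
`F` which acts as `0` on `V` and as the identity on the `i`-th tensor power of `V`. Here `σ` acts
on `f ∈ V` by `f ↦ (g ↦ f (σ g σ⁻¹))`, and `f₁ ⊗ ⋯ ⊗ f_i` is identified with the function
`(g₁, ..., g_i) ↦ f₁(g₁) ⋯ f_i(g_i)`. (All this factors through `Gal(K/F)`, and such an element
exists if and only if `V` and its `i`-th tensor power have no common composition factor.) -/
def Separated {F : Type} [Field F] [CharZero F] (S : Set (Ideal (𝓞 F)))
    (K : IntermediateField F (AlgebraicClosure F)) [IsGalois F K] (p i : ℕ) : Prop :=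
  ∃ a : Gal(AlgebraicClosure F/F) →₀ ℤ,
    (∀ f : K.fixingSubgroup →* Multiplicative (ZMod p), Mem S f → ∀ g : K.fixingSubgroup,
      ∑ σ ∈ a.support, (a σ : ZMod p) *
        Multiplicative.toAdd (f (MulAut.conjNormal σ g)) = 0) ∧
    ∀ f : Fin i → (K.fixingSubgroup →* Multiplicative (ZMod p)), (∀ j, Mem S (f j)) →
      ∀ g : Fin i → K.fixingSubgroup,
        ∑ σ ∈ a.support, (a σ : ZMod p) *
          ∏ j, Multiplicative.toAdd (f j (MulAut.conjNormal σ (g j))) =
            ∏ j, Multiplicative.toAdd (f j (g j))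

/-- Every `ρ g` is unipotent modulo the maximal ideal: some power of `ρ g - 1` has all entries in
the maximal ideal. -/
def ResiduallyUnipotent {F : Type} [Field F] {K : IntermediateField F (AlgebraicClosure F)}
    {A : Type} [CommRing A] [IsLocalRing A] {n : ℕ} (ρ : K.fixingSubgroup →* GL (Fin n) A) : Prop :=
  ∀ g, ∃ M : ℕ, ∀ i j, (((ρ g : Matrix (Fin n) (Fin n) A) - 1) ^ M) i j ∈ maximalIdeal A

/-- All products of `r` matrices of the form `ρ g - 1` have all their entries in the `s`-th power
of the maximal ideal. -/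
def Depth {F : Type} [Field F] {K : IntermediateField F (AlgebraicClosure F)}
    {A : Type} [CommRing A] [IsLocalRing A] {n : ℕ} (ρ : K.fixingSubgroup →* GL (Fin n) A)
    (r s : ℕ) : Prop :=
  ∀ (g : Fin r → K.fixingSubgroup) (i j : Fin n),
    (List.ofFn fun t => (ρ (g t) : Matrix (Fin n) (Fin n) A) - 1).prod i j ∈ maximalIdeal A ^ s

theorem result (p : ℕ) [Fact p.Prime] (F : Type) [Field F] [NumberField F]
    (K : IntermediateField F (AlgebraicClosure F)) [FiniteDimensional F K] [IsGalois F K]
    (S : Set (Ideal (𝓞 F))) (e m : ℕ) (he : AbelianExponent S K p e)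
    (hsep : ∀ i, 2 ≤ i → i ≤ m → Separated S K p i)
    (A : Type) [CommRing A] [IsDomain A] [IsDiscreteValuationRing A] [TopologicalSpace A]
    (hA : IsAdic (maximalIdeal A)) (hfin : Finite (ResidueField A)) (e0 : ℕ)
    (hp : (p : A) ∈ maximalIdeal A) (h0 : (p : A) ∈ maximalIdeal A ^ e0)
    (h1 : (p : A) ∉ maximalIdeal A ^ (e0 + 1)) (n : ℕ)
    (ρ : K.fixingSubgroup →* GL (Fin n) A) (hρ : Continuous ρ) (hur : UnramifiedOutside S ρ)
    (hdepth : (n * e * e0 < m ∧ ResiduallyUnipotent ρ) ∨
      ∃ r s : ℕ, 1 ≤ r ∧ r * e * e0 < s * m ∧ Depth ρ r s) :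
    ∀ g, ρ g = 1 := by
  have hpp : p.Prime := Fact.out
  have hfi : Finite (Gal(AlgebraicClosure F/F) ⧸ K.fixingSubgroup) := by
    have : CompactSpace Gal(AlgebraicClosure F/F) := inferInstance
    exact Subgroup.quotient_finite_of_isOpen _ (IntermediateField.fixingSubgroup_isOpen K)
  have hur' : ∀ τ ∈ Pool.Agent.Y802.GC.UrN S K.fixingSubgroup, ρ τ = 1 :=
    fun τ ⟨P, hP, hPS, hτ⟩ => hur P hP hPS τ hτ
  have hexp : ∀ (E : Type) [CommGroup E] [Finite E], IsPGroup p E →
      ∀ f : K.fixingSubgroup →* E, IsOpen (f.ker : Set K.fixingSubgroup) →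
        (∀ τ ∈ Pool.Agent.Y802.GC.UrN S K.fixingSubgroup, f τ = 1) → ∀ g, f g ^ (p ^ e) = 1 :=
    fun E _ _ hE f hf hfu g => he E hE f hf
      (fun P hP hPS τ hτ => hfu τ ⟨P, hP, hPS, hτ⟩) g
  have hmem : ∀ f : K.fixingSubgroup →* Multiplicative (ZMod p),
      Pool.Agent.Y802.GC.Adm p (Pool.Agent.Y802.GC.UrN S K.fixingSubgroup) f → Mem S f :=
    fun f hf => ⟨hf.isOpen, fun P hP hPS τ hτ => hf.ur τ ⟨P, hP, hPS, hτ⟩⟩
  have hsep' : ∀ i, 2 ≤ i → i ≤ m → Pool.Agent.Y802.GC.Sepa K.fixingSubgroup p
      (Pool.Agent.Y802.GC.UrN S K.fixingSubgroup) i := by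
    intro i hi him
    obtain ⟨a, ha0, ha1⟩ := hsep i hi him
    exact ⟨a, fun f hf g => ha0 f (hmem f hf) g,
      fun f hf g => ha1 f (fun j => hmem _ (hf j)) g⟩
  have hreg := Pool.Agent.Y802.GC.regOrd_dvr' h0 h1
  rcases hdepth with ⟨hn, hres⟩ | ⟨r, s, hr, hrs, hd⟩
  · exact Pool.Agent.Y802.GC.main_unip hpp hA hfin hp hreg
      (fun g τ hτ => Pool.Agent.Y802.GC.UrN_conj S _ g τ hτ) hexp hsep' ρ hρ hur' hn hres
  · exact Pool.Agent.Y802.GC.main_depth hpp hA hfin hp hreg
      (fun g τ hτ => Pool.Agent.Y802.GC.UrN_conj S _ g τ hτ) hexp hsep' ρ hρ hur' hr hrs hd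

end Pool.Agent.Results.MP_924d78_nt.GradedCriterion
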