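import Pool.Agent.Y802.TS.Gmain
import Pool.Agent.Y38.TS.Nil

/-!
# Representations over local rings and a sparse set of Frobenius elements

Let `f` be any function. There is a sequence `T` of prime numbers, growing faster than prescribed by `f`,
and a totally real field `L` of infinite degree, Galois and unramified at all finite places over a real
quadratic field `k`, in which all the primes `T i` split completely, with the following property. Let `K`
be a number field, `A` a Noetherian local ring with finite residue field of characteristic `p`, with the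
topology of the maximal ideal, and `ρ : G_K → GL_n(A)` a continuous representation.

* If `ρ` is trivial on the elements which fix `L`, then the image of `ρ` is finite: the infinite group
  `Gal(L/k)` and all its open subgroups have no infinite continuous linear representations.
* Let `ρ` be unramified outside a finite set of primes (with no condition at the ramified primes). If
  some powers of the Frobenius elements at the places of degree one above almost all `T i` are unipotent,
  then `ρ` is unipotent on an open subgroup. The image of `ρ` is finite if moreover these Frobenius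
  elements have finite order or `p` is nilpotent in `A`.
-/

set_option autoImplicit false

namespace Pool.Agent.Results.MP_924d78_nt.SparseFrobenius

open NumberField IntermediateField Module IsLocalRing

attribute [local instance 10] DivisionRing.toRatAlgebra

/-- the absolute Galois group of `ℚ` -/
abbrev GQ : Type := Gal(AlgebraicClosure ℚ/ℚ)

/-- the ring of all algebraic integers -/
abbrev ZBar : Type := 𝓞 (AlgebraicClosure ℚ)

/-- `τ` lies in the inertia group at the maximal ideal `P` of the ring of all algebraic integers -/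
def Inertia (P : Ideal ZBar) (τ : GQ) : Prop := ∀ x : ZBar, τ • x - x ∈ P

/-- `σ` is a (geometric) Frobenius element at the maximal ideal `P` above the prime number `q`: it induces
the inverse of `x ↦ x ^ q` on the residue field -/
def Frobenius (q : ℕ) (P : Ideal ZBar) (σ : GQ) : Prop := ∀ x : ZBar, x - (σ • x) ^ q ∈ P

/-- `L` is a totally real Galois extension of infinite degree of the real quadratic field `k`, unramified at
all finite places, and a union of finite extensions of `ℚ` whose degrees are powers of two -/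
structure UnramifiedTower (k L : IntermediateField ℚ (AlgebraicClosure ℚ)) : Prop where
  quadratic : finrank ℚ k = 2 ∧ ∃ s ∈ k,
    s ^ 2 = ((17 * 41 * 73 * 89 * 97 * 113 * 137 * 193 * 233 * 241 : ℕ) : AlgebraicClosure ℚ)
  le : k ≤ L
  infinite : ¬ FiniteDimensional ℚ L
  galois : ∀ σ : GQ, (∀ x ∈ k, σ x = x) → ∀ y ∈ L, σ y ∈ L
  unramified : ∀ q : ℕ, q.Prime → ∀ P : Ideal ZBar, P.IsMaximal → (q : ZBar) ∈ P → ∀ τ : GQ,
    (∀ x ∈ k, τ x = x) → Inertia P τ → ∀ y ∈ L, τ y = y
  real : ∀ (φ : L →+* ℂ) (y : L), (φ y).im = 0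
  two : ∀ y ∈ L, ∃ m : ℕ, finrank ℚ ℚ⟮y⟯ = 2 ^ m

/-- the prime number `q` is unramified and splits completely in `L`: all inertia elements and all Frobenius
elements above `q` fix `L` -/
def SplitsCompletely (q : ℕ) (L : IntermediateField ℚ (AlgebraicClosure ℚ)) : Prop :=
  ∀ P : Ideal ZBar, P.IsMaximal → (q : ZBar) ∈ P → ∀ σ : GQ, Inertia P σ ∨ Frobenius q P σ →
    ∀ y ∈ L, σ y = y

section rep

variable {K : IntermediateField ℚ (AlgebraicClosure ℚ)} {A : Type} [CommRing A] {n : ℕ}

/-- `ρ` is unramified outside a finite set of primes -/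
def AlmostUnramified (ρ : K.fixingSubgroup →* GL (Fin n) A) : Prop :=
  ∃ S : Finset ℕ, ∀ q : ℕ, q.Prime → q ∉ S → ∀ P : Ideal ZBar, P.IsMaximal → (q : ZBar) ∈ P →
    ∀ τ : K.fixingSubgroup, Inertia P τ → ρ τ = 1

/-- some positive power of the matrix is unipotent -/
def QuasiUnipotent (X : GL (Fin n) A) : Prop :=
  ∃ a : ℕ, 0 < a ∧ IsNilpotent ((X : Matrix (Fin n) (Fin n) A) ^ a - 1)

/-- the property `C` holds for the matrices of the Frobenius elements at the places of `K` of degree one
above almost all `T i` -/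
def AtAlmostAll (T : ℕ → ℕ) (ρ : K.fixingSubgroup →* GL (Fin n) A) (C : GL (Fin n) A → Prop) : Prop :=
  ∃ i₀ : ℕ, ∀ i ≥ i₀, ∀ P : Ideal ZBar, P.IsMaximal → (T i : ZBar) ∈ P →
    ∀ σ : K.fixingSubgroup, Frobenius (T i) P σ → C (ρ σ)

/-- `ρ` is unipotent on an open subgroup `U`: all products of `m` matrices `ρ g - 1`, `g` in `U`,
vanish, for some `m` -/
def PotentiallyUnipotent (ρ : K.fixingSubgroup →* GL (Fin n) A) : Prop :=
  ∃ U : Subgroup K.fixingSubgroup, IsOpen (U : Set K.fixingSubgroup) ∧ ∃ m : ℕ,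
    ∀ g : Fin m → K.fixingSubgroup, (∀ i, g i ∈ U) →
      (List.ofFn fun i => (ρ (g i) : Matrix (Fin n) (Fin n) A) - 1).prod = 0

/-- `ρ` is trivial on the elements which fix `L` -/
def TrivialOver (L : IntermediateField ℚ (AlgebraicClosure ℚ))
    (ρ : K.fixingSubgroup →* GL (Fin n) A) : Prop :=
  ∀ σ : K.fixingSubgroup, (∀ y ∈ L, (σ : GQ) y = y) → ρ σ = 1

end rep

/-- **Main result.** -/
theorem result (f : ℕ → ℕ) :
    ∃ (T : ℕ → ℕ) (k L : IntermediateField ℚ (AlgebraicClosure ℚ)),
      (∀ i, (T i).Prime ∧ T i < T (i + 1) ∧ f (T i) < T (i + 1)) ∧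
      UnramifiedTower k L ∧ (∀ i, SplitsCompletely (T i) L) ∧
      ∀ (K : IntermediateField ℚ (AlgebraicClosure ℚ)), FiniteDimensional ℚ K →
        ∀ (p : ℕ), p.Prime → ∀ (A : Type) [CommRing A] [IsLocalRing A] [IsNoetherianRing A]
          [TopologicalSpace A], IsAdic (maximalIdeal A) → Finite (ResidueField A) →
          (p : A) ∈ maximalIdeal A →
        ∀ (n : ℕ) (ρ : K.fixingSubgroup →* GL (Fin n) A), Continuous ρ →
          (TrivialOver L ρ → (Set.range ρ).Finite) ∧
          (AlmostUnramified ρ → AtAlmostAll T ρ QuasiUnipotent → PotentiallyUnipotent ρ ∧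
            (IsNilpotent (p : A) ∨ AtAlmostAll T ρ IsOfFinOrder → (Set.range ρ).Finite)) := by
  obtain ⟨T, k, L, hT1, hT2, htow, hrep⟩ := Pool.Agent.Y802.TS.gmain
    (Pool.Agent.Y38.TS.t_NIL Pool.Agent.Y759.TS.t_KOL) f
  refine ⟨T, k, L, fun i => ⟨hT1 i, ?_, ?_⟩, ⟨⟨htow.rank, htow.sqrt⟩, htow.le, htow.inf, htow.galois,
    htow.unr, htow.real, htow.two⟩, ?_, ?_⟩
  · have := hT2 i
    omega
  · have := hT2 i
    have := (hT1 i).pos
    omega
  · intro i P hP hTP σ hσ
    rcases hσ with hσ | hσ
    · exact htow.unrT i P hP hTP σ hσ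
    · exact htow.split i P hP hTP σ hσ
  · intro K hK p hp A _ _ _ _ hA hfin hpA n ρ hρ
    obtain ⟨h1, h2⟩ := hrep K.fixingSubgroup K.fixingSubgroup_isOpen p hp A hA hfin hpA n ρ hρ
    refine ⟨h1, ?_⟩
    rintro ⟨S, hS⟩ ⟨i0, hi0⟩
    obtain ⟨⟨U, hU, hUK, m, hm⟩, h4, h5⟩ := h2
      ⟨S, fun q hq hqS P hP hqP τ hτ hτP => hS q hq hqS P hP hqP ⟨τ, hτ⟩ hτP⟩
      ⟨i0, fun i hi P hP hTP σ hσ hσP => by
        obtain ⟨a, ha, r, hr⟩ := hi0 i hi P hP hTP ⟨σ, hσ⟩ hσP
        exact ⟨a, ha.ne', r, hr⟩⟩
    refine ⟨⟨U.subgroupOf K.fixingSubgroup, hU.preimage continuous_subtype_val, m, ?_⟩, ?_⟩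
    · intro g hg
      exact hm fun i => ⟨g i, hg i⟩
    · rintro (h | ⟨i1, hi1⟩)
      · exact h4 h
      · refine h5 ⟨i1, fun i hi P hP hTP σ hσ hσP => ?_⟩
        obtain ⟨a, ha, ha'⟩ := isOfFinOrder_iff_pow_eq_one.1 (hi1 i hi P hP hTP ⟨σ, hσ⟩ hσP)
        exact ⟨a, ha.ne', ha'⟩

end Pool.Agent.Results.MP_924d78_nt.SparseFrobenius
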